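import Pool.Graph.R_pool_sql_team_seeded_35f281b4.K7.H70.AW.FinE
import Pool.Graph.R_pool_sql_team_seeded_35f281b4.K7.H65.FP.L

/-!
# The L-functions of the Hecke character of `y² + y = x³` times an Artin representation

The functions of the Hecke character `ψ` alone (not of the sum of `ψ` and its conjugate), twisted by an
arbitrary representation of a Galois group: continuation and nonvanishing at `1`.
-/

set_option autoImplicit false
set_option linter.unusedSectionVars false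

open NumberField IsDedekindDomain

namespace Pool.Agent.H503.Psi

open Pool.Agent.K7.H70.AW
open Pool.Agent.K7.H70.EQ Pool.Agent.K7.H70.SE Pool.Agent.K7.H70.AR
open Pool.Agent.Y696 (nK und0 E0 card_nm)
open Pool.Agent.R430 (PN XX frP)
open Pool.Agent.K7.H70.TW (Fam)
open Pool.Agent.K7.H56 (Unr2)
open Pool.Agent.K7.H56.M (unr2_down)
open Pool.Agent.H921R2.TatePole (nm two_le_nm nm_summable)
open IntermediateField (fixedField subgroupEquivAlgEquiv)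
open scoped Classical

/-- the identity theorem for two meromorphic functions -/
lemma ident2 {f R : ℂ → ℂ} (hf : MeromorphicOn f Set.univ) (hf1 : AnalyticAt ℂ f 1)
    (hR : MeromorphicOn R Set.univ) (hR1 : AnalyticAt ℂ R 1)
    (he : ∀ s ∈ HH, R s = f s) : R 1 = f 1 := by
  have hg : MeromorphicOn (f - R) Set.univ := fun z hz => (hf z hz).sub (hR z hz)
  have h2 : meromorphicOrderAt (f - R) 2 = ⊤ := by
    rw [meromorphicOrderAt_eq_top_iff]
    apply Filter.Eventually.filter_mono nhdsWithin_le_nhds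
    filter_upwards [isOpen_HH.mem_nhds two_mem] with z hz
    rw [Pi.sub_apply, he z hz, sub_self]
  have h3 : meromorphicOrderAt (f - R) 1 = ⊤ := by
    by_contra h
    exact hg.meromorphicOrderAt_ne_top_of_isPreconnected isPreconnected_univ (Set.mem_univ _)
      (Set.mem_univ _) h h2
  rw [meromorphicOrderAt_eq_top_iff] at h3
  have h4 : Filter.Tendsto (f - R) (nhdsWithin 1 {1}ᶜ) (nhds ((f - R) 1)) :=
    ((hf1.sub hR1).continuousAt.tendsto).mono_left nhdsWithin_le_nhds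
  have h5 : Filter.Tendsto (f - R) (nhdsWithin 1 {1}ᶜ) (nhds 0) :=
    tendsto_const_nhds.congr' (h3.mono fun z hz => hz.symm)
  have h6 := tendsto_nhds_unique h4 h5
  rw [Pi.sub_apply, sub_eq_zero] at h6
  exact h6.symm

section
variable {K F : Type} [Field K] [NumberField K] [Field F] [NumberField F] [Algebra K F]
  [IsGalois K F] {wf : HeightOneSpectrum (𝓞 K) → HeightOneSpectrum (𝓞 F)}

/-- **the function of a character times `ψ`**, abelian extensions -/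
theorem ct_PW (ι : Pool.Agent.Y688.RR →+* 𝓞 K) (hU : Unr2 K)
    (hcomm : ∀ σ τ : Gal(F/K), σ * τ = τ * σ) (hray : Ray K F) (hK : GoodG K) (hF : GoodG F)
    (hwf : ∀ v, und0 K (wf v) = v) (X : Gal(F/K) →* ℂˣ) :
    ∃ R : ℂ → ℂ, Ct R (LL K (PW ι) wf (fun g => ((X g : ℂˣ) : ℂ))) ∧ R 1 ≠ 0 := by
  obtain ⟨R, hR, hR1⟩ := ct_E_ne (wf := wf) ANA.t_ana (NV.t_nv Sum.t_sum) ι hU hcomm hray hK hF hwf X
  obtain ⟨n, hn, hno, hun, hX⟩ := hray
  obtain ⟨R₁, h₁⟩ := ANA.t_ana K F ι hU hcomm n hn hno hun X (hX X) wf hwf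
  obtain ⟨R₂, h₂⟩ := ANA.t_ana K F ι hU hcomm n hn hno hun X⁻¹ (hX X⁻¹) wf hwf
  have h12 : Ct (fun s => R₁ s * (starRingEnd ℂ) (R₂ ((starRingEnd ℂ) s)))
      (LL K (ps hK) wf (fun g => ((X g : ℂˣ) : ℂ))) := by
    refine (h₁.mul h₂.conj).congr fun s hs => ?_
    have e1 : (starRingEnd ℂ) (∑' p : HeightOneSpectrum (𝓞 K) × ℕ,
        av K (fun g => ((X⁻¹ g : ℂˣ) : ℂ)) (wf p.1) (p.2 + 1) * ltP (PW ι) p ((starRingEnd ℂ) s)) =
        LL K (fun v j => (starRingEnd ℂ) (PW ι v j)) wf (fun g => ((X g : ℂˣ) : ℂ)) s := by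
      have h3 := LL_conj (wf := wf) (PW ι) (fun g : Gal(F/K) => ((X⁻¹ g : ℂˣ) : ℂ)) s
      have h4 : (fun g : Gal(F/K) => (starRingEnd ℂ) ((X⁻¹ g : ℂˣ) : ℂ)) =
          fun g => ((X g : ℂˣ) : ℂ) := by
        funext g
        rw [unit_conj, MonoidHom.inv_apply, MonoidHom.inv_apply, inv_inv]
      rw [h4] at h3
      exact h3
    rw [LL_ps hK ι _ hs]
    show _ = (∑' p : HeightOneSpectrum (𝓞 K) × ℕ,
        av K (fun g => ((X g : ℂˣ) : ℂ)) (wf p.1) (p.2 + 1) * ltP (PW ι) p s) + _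
    rw [e1]
    rfl
  have h5 : R₁ 1 * (starRingEnd ℂ) (R₂ ((starRingEnd ℂ) 1)) = R 1 :=
    ident2 hR.mero hR.an h12.mero h12.an fun s hs => by
      rw [hR.eq s hs]
      exact h12.eq s hs
  refine ⟨R₁, h₁, fun h0 => hR1 ?_⟩
  rw [← h5, h0, zero_mul]

end

section
variable {K F L : Type} [Field K] [NumberField K] [Field F] [NumberField F] [Algebra K F]
  [IsGalois K F] [Field L] [NumberField L] [Algebra F L]
  {wf : HeightOneSpectrum (𝓞 K) → HeightOneSpectrum (𝓞 F)}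

/-- **the function of a character times `ψ`**, arbitrary Galois groups -/
theorem ct_genPW (hf : Fam L) (hr : Rays L) (ι : Pool.Agent.Y688.RR →+* 𝓞 K)
    (h3 : ∃ a : K, a ^ 2 = -3) (hK : GoodG K) (hwf : ∀ v, und0 K (wf v) = v)
    (X : Gal(F/K) →* ℂˣ) :
    ∃ R : ℂ → ℂ, Ct R (LL K (PW ι) wf (fun g => ((X g : ℂˣ) : ℂ))) ∧ R 1 ≠ 0 := by
  set F₀ : IntermediateField K F := fixedField X.ker with hF₀
  have hnor : X.ker.Normal := inferInstance
  have hgal : IsGalois K F₀ := IsGalois.of_fixedField_normal_subgroup X.ker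
  let _ : Algebra F₀ L := ((algebraMap F L).comp (algebraMap F₀ F)).toAlgebra
  let _ : Algebra K L := ((algebraMap F L).comp (algebraMap K F)).toAlgebra
  have hU : Unr2 K := unr2_down (F := K) (K := L) hf.two
  have hker : (AlgEquiv.restrictNormalHom (F := K) (K₁ := F) F₀).ker = X.ker := by
    rw [IntermediateField.restrictNormalHom_ker, hF₀, IntermediateField.fixingSubgroup_fixedField]
  have hsurj : Function.Surjective (AlgEquiv.restrictNormalHom (F := K) (K₁ := F) F₀) :=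
    AlgEquiv.restrictNormalHom_surjective F
  let X₀ : Gal(F₀/K) →* ℂˣ := (AlgEquiv.restrictNormalHom (F := K) (K₁ := F) F₀).liftOfSurjective
    hsurj ⟨X, hker.le⟩
  have hX₀ : ∀ g : Gal(F/K), X₀ (AlgEquiv.restrictNormalHom F₀ g) = X g := fun g =>
    MonoidHom.liftOfRightInverse_comp_apply _ _ _ ⟨X, hker.le⟩ g
  have hcomm : ∀ σ τ : Gal(F₀/K), σ * τ = τ * σ := by
    intro σ τ
    obtain ⟨g, rfl⟩ := hsurj σ
    obtain ⟨h, rfl⟩ := hsurj τ
    have h1 : g * h * (h * g)⁻¹ ∈ X.ker := by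
      rw [MonoidHom.mem_ker, map_mul, map_mul, map_inv, map_mul, mul_comm (X h), mul_inv_cancel]
    rw [← hker, MonoidHom.mem_ker, map_mul, map_inv, mul_inv_eq_one, map_mul, map_mul] at h1
    exact h1
  have hwf₀ : ∀ v, und0 K (und0 F₀ (wf v)) = v := fun v => by rw [und0_tower, hwf]
  obtain ⟨R, hR, hR1⟩ := ct_PW (wf := fun v => und0 F₀ (wf v)) ι hU hcomm
    (hr K F₀ hcomm h3) hK (hf.good F₀) hwf₀ X₀
  refine ⟨R, hR.congr fun s _ => ?_, hR1⟩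
  rw [← LL_inf (wf := wf) Inf.t_inf (PW ι) (fun v => rfl) (fun g => ((X₀ g : ℂˣ) : ℂ)) s]
  simp only [hX₀]

/-- the function of an induced character -/
theorem ct_indPW (hf : Fam L) (hr : Rays L) (ι : Pool.Agent.Y688.RR →+* 𝓞 K)
    (h3 : ∃ a : K, a ^ 2 = -3)
    (hwf : ∀ v, und0 K (wf v) = v) (C : Subgroup Gal(F/K)) (X : C →* ℂˣ) :
    ∃ R Λ' : ℂ → ℂ, Ct R Λ' ∧ R 1 ≠ 0 ∧ ContinuousOn Λ' HH ∧ ∀ s ∈ HH,
      LL K (PW ι) wf (fun g => (Nat.card C : ℂ)⁻¹ * JJ C (fun c => ((X c : ℂˣ) : ℂ)) g) s = Λ' s := by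
  let _ : Algebra (fixedField C) L := ((algebraMap F L).comp (algebraMap (fixedField C) F)).toAlgebra
  have hM : GoodG (fixedField C) := hf.good _
  choose wf' hwf' using fun u : HeightOneSpectrum (𝓞 (fixedField C)) => exists_above (F := F) u
  let X' : Gal(F/fixedField C) →* ℂˣ := X.comp (subgroupEquivAlgEquiv C).symm.toMonoidHom
  have h3' : ∃ a : fixedField C, a ^ 2 = -3 := by
    obtain ⟨a, ha⟩ := h3
    exact ⟨algebraMap K _ a, by rw [← map_pow, ha, map_neg, map_ofNat]⟩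
  obtain ⟨R, hR, hR1⟩ := ct_genPW (L := L) hf hr (upι (fixedField C) ι) h3' hM hwf' X'
  refine ⟨R, _, hR, hR1, LL_cont PW_bd _, fun s hs => ?_⟩
  have h1 := LL_ind (wf := wf) LOC.t_loc Sum.t_sum C (fun g => ((X' g : ℂˣ) : ℂ)) (fun a b => by
    rw [map_mul, map_mul, map_inv, mul_right_comm, mul_inv_cancel, one_mul]) PW_bd PW_bd
    (PW_cmp ι) hwf hwf' hs
  rw [← h1]
  have e : (fun c : C => ((X c : ℂˣ) : ℂ)) = fun c => ((X' (subgroupEquivAlgEquiv C c) : ℂˣ) : ℂ) := by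
    funext c
    show ((X c : ℂˣ) : ℂ) = ((X ((subgroupEquivAlgEquiv C).symm (subgroupEquivAlgEquiv C c)) : ℂˣ) : ℂ)
    rw [MulEquiv.symm_apply_apply]
  rw [e]

/-- **the relation for a class function** -/
theorem rel_bigPW (hf : Fam L) (hr : Rays L) (ι : Pool.Agent.Y688.RR →+* 𝓞 K)
    (h3 : ∃ a : K, a ^ 2 = -3)
    (hwf : ∀ v, und0 K (wf v) = v) {θ : Gal(F/K) → ℂ} {m : ℕ} {κ : Type} [Fintype κ]
    {C : κ → Subgroup Gal(F/K)} {X : ∀ i, C i →* ℂˣ} {n : κ → ℤ}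
    (h : ∀ g, (m : ℂ) * θ g =
      ∑ i, (n i : ℂ) * ((Nat.card (C i) : ℂ)⁻¹ * JJ (C i) (fun c => ((X i c : ℂˣ) : ℂ)) g)) :
    RelT m (LL K (PW ι) wf θ) := by
  choose R Λ' h1 h2 h4 h5 using fun i => ct_indPW (wf := wf) (L := L) hf hr ι h3 hwf (C i) (X i)
  refine ⟨κ, inferInstance, R, Λ', n, fun i => ⟨h1 i, h2 i, h4 i⟩, fun s hs => ?_⟩
  rw [← LL_mul, funext h, LL_lin PW_bd (fun i => (n i : ℂ)) _ hs]
  exact Finset.sum_congr rfl fun i _ => by rw [h5 i s hs]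

variable {V : Type} [AddCommGroup V] [Module ℂ V] [FiniteDimensional ℂ V]

/-- **the relation for a representation** -/
theorem rel_repPW (hf : Fam L) (hr : Rays L) (ι : Pool.Agent.Y688.RR →+* 𝓞 K)
    (h3 : ∃ a : K, a ^ 2 = -3)
    (hwf : ∀ v, und0 K (wf v) = v) (ρ : Representation ℂ Gal(F/K) V) :
    ∃ m : ℕ, 0 < m ∧ RelT m (LL K (PW ι) wf (fun g => LinearMap.trace ℂ V (ρ g⁻¹))) := by
  obtain ⟨m, κ, _, C, X, n, hm, -, h⟩ := ART.t_art Gal(F/K) V ρ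
  refine ⟨m, hm, rel_bigPW (L := L) (X := fun i => (X i)⁻¹) (n := n) (C := C) hf hr ι h3
    hwf fun g => ?_⟩
  rw [h g⁻¹]
  refine Finset.sum_congr rfl fun i _ => ?_
  rw [JJ_inv]
  congr 3
  funext c
  rw [map_inv]
  rfl

/-- the local factor of a representation times `ψ` -/
lemma loc_expPW (ι : Pool.Agent.Y688.RR →+* 𝓞 K) (v : HeightOneSpectrum (𝓞 K)) {s : ℂ} (hs : s ∈ HH)
    (f : Module.End ℂ V) {N : ℕ} (hN : 0 < N) (hf : f ^ (N + 1) = f) :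
    ∃ L : ℂ, HasSum (fun m : ℕ => LinearMap.trace ℂ V (f ^ (m + 1)) * ltP (PW ι) (v, m) s) L ∧
      Complex.exp L = (LinearMap.det ((1 : Module.End ℂ V) -
        (PN ι v.asIdeal * (nK v : ℂ) ^ (-s)) • f))⁻¹ := by
  have ha : ‖PN ι v.asIdeal * (nK v : ℂ) ^ (-s)‖ < 1 := by
    have h2 := y_le v (mem_HH_iff.1 hs).le
    have hq0 : (0 : ℝ) < nK v := by exact_mod_cast (Nat.pos_of_ne_zero (nK_ne v))
    have h1 : ‖PN ι v.asIdeal‖ ≤ Real.sqrt (nK v) :=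
      Real.le_sqrt_of_sq_le Pool.Agent.R430.PN_sq
    rw [norm_mul, q_norm]
    calc ‖PN ι v.asIdeal‖ * (nK v : ℝ) ^ (-s.re) ≤ Real.sqrt (nK v) * (nK v : ℝ) ^ (-s.re) :=
          mul_le_mul_of_nonneg_right h1 (by positivity)
      _ = (nK v : ℝ) ^ (-(s.re - 1 / 2)) := by
          rw [Real.sqrt_eq_rpow, ← Real.rpow_add hq0]
          congr 1
          ring
      _ ≤ 1 / 2 := h2
      _ < 1 := by norm_num
  obtain ⟨L, hL, he⟩ := det_exp f hN hf ha (b := 0) (by rw [norm_zero]; exact one_pos)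
  refine ⟨L, ?_, ?_⟩
  · convert hL using 2 with m
    unfold ltP PW
    simp only
    rw [mul_pow, zero_pow (Nat.succ_ne_zero m), add_zero]
    ring
  · rw [he, add_zero, mul_zero, zero_smul, add_zero]

/-- **The L-functions of the representations times `ψ`.** -/
theorem all_PW (hf : Fam L) (hr : Rays L) (ι : Pool.Agent.Y688.RR →+* 𝓞 K)
    (h3 : ∃ a : K, a ^ 2 = -3) (ρ : Representation ℂ Gal(F/K) V)
    (w : HeightOneSpectrum (𝓞 K) → HeightOneSpectrum (𝓞 F)) (hw : ∀ v, und0 K (w v) = v)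
    (φ : HeightOneSpectrum (𝓞 K) → Gal(F/K))
    (hφ : ∀ v, ∀ x : 𝓞 F,
      φ v • x - x ^ Nat.card (𝓞 K ⧸ (w v).asIdeal.under (𝓞 K)) ∈ (w v).asIdeal) :
    ∃ (U : Set ℂ) (Φ : ℂ → ℂ), IsOpen U ∧ IsConnected U ∧ HH ⊆ U ∧ (1 : ℂ) ∈ U ∧
      AnalyticOnNhd ℂ Φ U ∧ (∀ s ∈ HH, HasProd (fun v : HeightOneSpectrum (𝓞 K) =>
        (LinearMap.det ((1 : Module.End ℂ V) -
          (PN ι v.asIdeal * (nK v : ℂ) ^ (-s)) •
            avg ρ ((w v).asIdeal.inertia Gal(F/K)) (φ v)))⁻¹) (Φ s)) ∧ Φ 1 ≠ 0 ∧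
      ∃ m : ℕ, 0 < m ∧ ∃ R : ℂ → ℂ, MeromorphicOn R Set.univ ∧ AnalyticAt ℂ R 1 ∧ R 1 ≠ 0 ∧
        ∀ s ∈ HH, R s = Φ s ^ m := by
  obtain ⟨m0, hm0, κ, _, Rf, Λ', n, h1, h2⟩ := rel_repPW (L := L) hf hr ι h3 hw ρ
  have hq : ∀ v, Nat.card (𝓞 K ⧸ (w v).asIdeal.under (𝓞 K)) = nK (und0 K (w v)) := fun v =>
    card_nm (und0 K (w v))
  have hφ' : ∀ v, ∀ x : 𝓞 F, φ v • x - x ^ nK (und0 K (w v)) ∈ (w v).asIdeal := fun v x => by
    rw [← hq v]
    exact hφ v x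
  have hI : ∀ v, ∀ i ∈ (w v).asIdeal.inertia Gal(F/K),
      (φ v)⁻¹ * i * φ v ∈ (w v).asIdeal.inertia Gal(F/K) := by
    intro v
    have := (w v).isPrime
    exact frob_conj (nK_ne _) (hφ' v)
  obtain ⟨U, Φ, g1, g2, g3, g4, g5, g6, g7, R, r1, r2, r3, r4⟩ :=
    cont_root (f := Rf) (Λ := Λ') (n := n) hm0
      (Λ0 := LL K (PW ι) w (fun g => LinearMap.trace ℂ V (ρ g⁻¹))) (fun i => (h1 i).1.mero)
      (fun i => (h1 i).1.an)
      (fun i => (h1 i).2.1) (fun i => (h1 i).1.anHH (h1 i).2.2)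
      (fun i s hs => (h1 i).1.eq s hs) (LL_cont PW_bd _) h2
  refine ⟨U, Φ, g1, g2, g3, g4, g5, fun s hs => ?_, g7, m0, hm0, R, r1, r2, r3,
    fun s hs => by rw [r4 s hs, g6 s hs]⟩
  have hloc : ∀ v, ∃ Lg : ℂ, HasSum (fun j : ℕ =>
      av K (fun g => LinearMap.trace ℂ V (ρ g⁻¹)) (w v) (j + 1) * ltP (PW ι) (v, j) s) Lg ∧
      Complex.exp Lg = (LinearMap.det ((1 : Module.End ℂ V) -
        (PN ι v.asIdeal * (nK v : ℂ) ^ (-s)) •
          avg ρ ((w v).asIdeal.inertia Gal(F/K)) (φ v)))⁻¹ := by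
    intro v
    obtain ⟨Lg, hL1, hL2⟩ := loc_expPW ι v hs (avg ρ ((w v).asIdeal.inertia Gal(F/K)) (φ v))
      (N := orderOf (φ v)) (orderOf_pos _) (avg_fin ρ _ (hI v))
    exact ⟨Lg, hasSum_congr' hL1 fun j => by rw [av_trace ρ (hφ' v)], hL2⟩
  choose Lg hL he using hloc
  have h3 := ((LL_summable (wf := w) (PW_bd (ι := ι)) (fun g => LinearMap.trace ℂ V (ρ g⁻¹))
    hs).hasSum.prod_fiberwise hL).cexp
  rw [g6 s hs]
  convert h3 using 1
  · funext v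
    exact (he v).symm
  · rfl

/-- **The L-functions of the representations times `ψ`**, for the 2-groups. -/
theorem ent_PW (hf : Fam L) (hr : Rays L) (ι : Pool.Agent.Y688.RR →+* 𝓞 K)
    (h3 : ∃ a : K, a ^ 2 = -3) (hG : IsPGroup 2 Gal(F/K)) (ρ : Representation ℂ Gal(F/K) V)
    (w : HeightOneSpectrum (𝓞 K) → HeightOneSpectrum (𝓞 F)) (hw : ∀ v, und0 K (w v) = v)
    (φ : HeightOneSpectrum (𝓞 K) → Gal(F/K))
    (hφ : ∀ v, ∀ x : 𝓞 F,
      φ v • x - x ^ Nat.card (𝓞 K ⧸ (w v).asIdeal.under (𝓞 K)) ∈ (w v).asIdeal) :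
    ∃ Φ : ℂ → ℂ, Differentiable ℂ Φ ∧ (∀ s ∈ HH, HasProd (fun v : HeightOneSpectrum (𝓞 K) =>
        (LinearMap.det ((1 : Module.End ℂ V) -
          (PN ι v.asIdeal * (nK v : ℂ) ^ (-s)) •
            avg ρ ((w v).asIdeal.inertia Gal(F/K)) (φ v)))⁻¹) (Φ s)) ∧ Φ 1 ≠ 0 := by
  obtain ⟨U, Φ, g1, g2, g3, g4, g5, g6, g7, -⟩ := all_PW hf hr ι h3 ρ w hw φ hφ
  obtain ⟨R, hR⟩ := et_rep_PW (wf := w) MON.t_mon Pool.Agent.K7.H65.FP.a_ena Inf.t_inf LOC.t_loc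
    Sum.t_sum (unr2_down (F := F) (K := L) hf.two) ι hw hG ρ
  have hq : ∀ v, Nat.card (𝓞 K ⧸ (w v).asIdeal.under (𝓞 K)) = nK (und0 K (w v)) := fun v =>
    card_nm (und0 K (w v))
  have hφ' : ∀ v, ∀ x : 𝓞 F, φ v • x - x ^ nK (und0 K (w v)) ∈ (w v).asIdeal := fun v x => by
    rw [← hq v]
    exact hφ v x
  have hI : ∀ v, ∀ i ∈ (w v).asIdeal.inertia Gal(F/K),
      (φ v)⁻¹ * i * φ v ∈ (w v).asIdeal.inertia Gal(F/K) := by
    intro v
    have := (w v).isPrime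
    exact frob_conj (nK_ne _) (hφ' v)
  have hprod : ∀ s ∈ HH, HasProd (fun v : HeightOneSpectrum (𝓞 K) =>
        (LinearMap.det ((1 : Module.End ℂ V) -
          (PN ι v.asIdeal * (nK v : ℂ) ^ (-s)) •
            avg ρ ((w v).asIdeal.inertia Gal(F/K)) (φ v)))⁻¹) (R s) := by
    intro s hs
    have hloc : ∀ v, ∃ Lg : ℂ, HasSum (fun j : ℕ =>
        av K (fun g => LinearMap.trace ℂ V (ρ g⁻¹)) (w v) (j + 1) * ltP (PW ι) (v, j) s) Lg ∧
        Complex.exp Lg = (LinearMap.det ((1 : Module.End ℂ V) -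
          (PN ι v.asIdeal * (nK v : ℂ) ^ (-s)) •
            avg ρ ((w v).asIdeal.inertia Gal(F/K)) (φ v)))⁻¹ := by
      intro v
      obtain ⟨Lg, hL1, hL2⟩ := loc_expPW ι v hs (avg ρ ((w v).asIdeal.inertia Gal(F/K)) (φ v))
        (N := orderOf (φ v)) (orderOf_pos _) (avg_fin ρ _ (hI v))
      exact ⟨Lg, hasSum_congr' hL1 fun j => by rw [av_trace ρ (hφ' v)], hL2⟩
    choose Lg hL he using hloc
    have h3 := ((LL_summable (wf := w) (PW_bd (ι := ι)) (fun g => LinearMap.trace ℂ V (ρ g⁻¹))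
      hs).hasSum.prod_fiberwise hL).cexp
    rw [hR.eq s hs]
    convert h3 using 1
    · funext v
      exact (he v).symm
    · rfl
  refine ⟨R, hR.diff, hprod, ?_⟩
  have h5 : R 1 = Φ 1 := ident g2 g4 g3 g5 (fun z _ => (hR.diff.analyticAt z).meromorphicAt)
    (hR.diff.analyticAt 1) fun s hs => (hprod s hs).unique (g6 s hs)
  rw [h5]
  exact g7

end

end Pool.Agent.H503.Psi
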