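import Pool.Agent.H503.Psi1
import Pool.Graph.R_pool_sql_team_seeded_35f281b4.K7.H65.FP.E

/-!
# The values of the Hecke character as Frobenius endomorphisms
-/

set_option autoImplicit false
set_option linter.unusedSectionVars false

open NumberField IsDedekindDomain

namespace Pool.Agent.H503.Psi

open Pool.Agent.W192.HK
open Pool.Agent.Y696 (eis om omr bel mem_bel exists_prim psi_prim prim_ne nK card_nm deg_base psi RR_eis)
open Pool.Agent.Y692.QS
open Pool.Agent.R430 (PN PN_good PN_prime iE)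
open Pool.Agent.Y715.T.Rs (eq0 eq0_coe)
open scoped Classical

variable {K : Type} [Field K] [NumberField K] {z : 𝓞 K}

lemma hz' (hz : z * z = -1 - z) : (-1 - z) * (-1 - z) = -1 - (-1 - z) := by
  linear_combination hz

/-- the embedding of the Eisenstein integers with `ω ↦ z²` -/
noncomputable def iz (hz : z * z = -1 - z) : Pool.Agent.Y688.RR →+* 𝓞 K :=
  ((hom (-1 - z) (hz' hz)).comp (eq0.symm : eis →+* Ei)).comp
    (RingEquiv.subringCongr RR_eis : Pool.Agent.Y688.RR →+* eis)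

lemma iE_iz (hz : z * z = -1 - z) (x : eis) : iE (iz hz) x = hom (-1 - z) (hz' hz) (eq0.symm x) := rfl

/-- **the value of the Hecke character at a prime is the Frobenius endomorphism** -/
theorem pn_val (hz : z * z = -1 - z) {v : HeightOneSpectrum (𝓞 K)} (h3 : (3 : 𝓞 K) ∉ v.asIdeal) :
    ∃ x : Ei, nr x = Nat.card (𝓞 K ⧸ v.asIdeal) ∧
      2 * x.re - x.im = (Nat.card (𝓞 K ⧸ v.asIdeal) : ℤ) -
        Nat.card {p : (𝓞 K ⧸ v.asIdeal) × (𝓞 K ⧸ v.asIdeal) // p.2 ^ 2 + p.2 = p.1 ^ 3} ∧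
      (x.re : 𝓞 K) + x.im * z ∈ v.asIdeal ∧ PN (iz hz) v.asIdeal = toC x := by
  obtain ⟨f, hf0, hf⟩ := deg_base (iE (iz hz)) v
  set P := bel (iE (iz hz)) v with hP
  have h3P : (3 : eis) ∉ P.asIdeal := by
    intro h
    rw [hP, mem_bel, map_ofNat] at h
    exact h3 h
  have hcop : IsCoprime P.asIdeal (sp 3) := by
    have hpmax : P.asIdeal.IsMaximal := P.isPrime.isMaximal P.ne_bot
    rw [Ideal.isCoprime_iff_sup_eq]
    by_contra hne
    obtain ⟨M, hM, hle⟩ := Ideal.exists_le_maximal _ hne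
    have h4 : P.asIdeal = M := hpmax.eq_of_le hM.ne_top (le_sup_left.trans hle)
    apply h3P
    rw [h4]
    exact hle (Ideal.mem_sup_right (Ideal.mem_span_singleton_self 3))
  obtain ⟨α, hα1, hα2⟩ := exists_prim hcop
  set y : Ei := eq0.symm (α ^ f) with hy
  have htC : toC y = (α : ℂ) ^ f := by
    rw [hy, ← eq0_coe, RingEquiv.apply_symm_apply]
    push_cast
    rfl
  have hPN : PN (iz hz) v.asIdeal = toC (star y) := by
    rw [PN_prime v hf, ← hP, hα1, psi_prim hα2, toC_star, htC, map_pow]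
  obtain ⟨g1, g2⟩ := PN_good (ι := iz hz) h3
  have hnm : Nat.card (𝓞 K ⧸ v.asIdeal) = nK v := card_nm v
  refine ⟨star y, ?_, ?_, ?_, hPN⟩
  · have h6 : Complex.normSq (toC (star y)) = (Nat.card (𝓞 K ⧸ v.asIdeal) : ℝ) := by
      have h7 : ((Complex.normSq (toC (star y)) : ℝ) : ℂ) = (Nat.card (𝓞 K ⧸ v.asIdeal) : ℂ) := by
        rw [← Complex.mul_conj, ← hPN, g1, hnm]
      exact_mod_cast h7
    rw [toC_normSq] at h6
    exact_mod_cast h6
  · have h6 : toC (star y) + (starRingEnd ℂ) (toC (star y)) =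
        ((2 * (star y).re - (star y).im : ℤ) : ℂ) := by
      rw [toC_apply, map_add, map_mul, wC_conj]
      simp only [map_intCast]
      push_cast
      ring
    have h7 : ((2 * (star y).re - (star y).im : ℤ) : ℂ) =
        (((Nat.card (𝓞 K ⧸ v.asIdeal) : ℤ) -
        Nat.card {p : (𝓞 K ⧸ v.asIdeal) × (𝓞 K ⧸ v.asIdeal) // p.2 ^ 2 + p.2 = p.1 ^ 3} : ℤ) : ℂ) := by
      rw [← h6, ← hPN, g2, hnm]
      push_cast
      rfl
    exact_mod_cast h7
  · have h6 : ((star y).re : 𝓞 K) + (star y).im * z = iE (iz hz) (α ^ f) := by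
      rw [iE_iz, ← hy, hom_apply, star_re, star_im]
      push_cast
      ring
    rw [h6, map_pow]
    apply Ideal.pow_mem_of_mem _ _ f hf0
    rw [← mem_bel, ← hP, hα1]
    exact Ideal.mem_span_singleton_self α

end Pool.Agent.H503.Psi
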