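import Pool.Agent.H503.Psi2
import Pool.Graph.R_pool_sql_team_seeded_35f281b4.H76.BKT.Mat

/-!
# The L-functions of the Hecke character times an Artin representation, in terms of matrices
-/

set_option autoImplicit false
set_option linter.unusedSectionVars false

open NumberField IsDedekindDomain

namespace Pool.Agent.H503.Psi

open Pool.Agent.K7.H70.AW
open Pool.Agent.K7.H70.EQ Pool.Agent.K7.H70.SE
open Pool.Agent.Y696 (nK und0 E0 card_nm)
open Pool.Agent.Y692.QS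
open Pool.Agent.R430 (PN)
open Pool.Agent.H76.BKT (repM dualM avM avg_repM)
open scoped Classical

section
variable {K F : Type} [Field K] [NumberField K] [Field F] [NumberField F] [Algebra K F]
  {κ : Type} [Fintype κ] [DecidableEq κ]

/-- `σ` acts as `x ↦ x ^ N(u)` modulo `w` -/
def Frb (u : HeightOneSpectrum (𝓞 K)) (w : HeightOneSpectrum (𝓞 F)) (σ : Gal(F/K)) : Prop :=
  ∀ x : 𝓞 F, σ • x - x ^ Nat.card (𝓞 K ⧸ u.asIdeal) ∈ w.asIdeal

/-- the average over the Frobenius elements -/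
noncomputable def meanM (M : Gal(F/K) →* Matrix κ κ ℂ) (u : HeightOneSpectrum (𝓞 K))
    (w : HeightOneSpectrum (𝓞 F)) : Matrix κ κ ℂ :=
  ((Nat.card {σ : Gal(F/K) // Frb u w σ} : ℂ))⁻¹ • ∑ σ : {σ : Gal(F/K) // Frb u w σ}, M σ.1

variable [IsGalois K F]

theorem mean_eq (M : Gal(F/K) →* Matrix κ κ ℂ) {u : HeightOneSpectrum (𝓞 K)}
    {w : HeightOneSpectrum (𝓞 F)} (hw : w.asIdeal.under (𝓞 K) = u.asIdeal) {φ : Gal(F/K)}
    (hφ : ∀ x : 𝓞 F, φ • x - x ^ Nat.card (𝓞 K ⧸ w.asIdeal.under (𝓞 K)) ∈ w.asIdeal) :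
    (meanM M u w).transpose = avM (dualM M) (w.asIdeal.inertia Gal(F/K)) φ := by
  have hnm : nK u = Nat.card (𝓞 K ⧸ u.asIdeal) := (card_nm u).symm
  have hn0 : Nat.card (𝓞 K ⧸ u.asIdeal) ≠ 0 := by
    rw [← hnm]
    exact nK_ne u
  rw [hw] at hφ
  have hp := w.isPrime
  have h1 := Pool.Agent.K7.H70.EQ.sum_frob hn0 hφ (repM (dualM M))
  rw [avg_repM] at h1
  apply Matrix.toLin'.injective
  rw [← h1]
  unfold meanM
  rw [Matrix.transpose_smul, Matrix.transpose_sum, map_smul, map_sum]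
  congr 1

/-- the local factor `det(1 - x A)⁻¹` -/
theorem det_mean (M : Gal(F/K) →* Matrix κ κ ℂ) {u : HeightOneSpectrum (𝓞 K)}
    {w : HeightOneSpectrum (𝓞 F)} (hw : w.asIdeal.under (𝓞 K) = u.asIdeal) {φ : Gal(F/K)}
    (hφ : ∀ x : 𝓞 F, φ • x - x ^ Nat.card (𝓞 K ⧸ w.asIdeal.under (𝓞 K)) ∈ w.asIdeal) (x : ℂ) :
    LinearMap.det ((1 : Module.End ℂ (κ → ℂ)) -
      x • avg (repM (dualM M)) (w.asIdeal.inertia Gal(F/K)) φ) = Matrix.det (1 - x • meanM M u w) := by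
  rw [avg_repM, ← mean_eq M hw hφ, ← Matrix.det_transpose (1 - x • meanM M u w),
    ← LinearMap.det_toLin']
  congr 1
  rw [Matrix.transpose_sub, Matrix.transpose_one, Matrix.transpose_smul, map_sub, map_smul,
    Matrix.toLin'_one]
  rfl

end

/-- the conditions on the Frobenius endomorphism `x` modulo `u` -/
def FrE {K : Type} [Field K] [NumberField K] (z : 𝓞 K) (u : HeightOneSpectrum (𝓞 K)) (x : Ei) : Prop :=
  nr x = Nat.card (𝓞 K ⧸ u.asIdeal) ∧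
    2 * x.re - x.im = (Nat.card (𝓞 K ⧸ u.asIdeal) : ℤ) -
      Nat.card {p : (𝓞 K ⧸ u.asIdeal) × (𝓞 K ⧸ u.asIdeal) // p.2 ^ 2 + p.2 = p.1 ^ 3} ∧
    (x.re : 𝓞 K) + x.im * z ∈ u.asIdeal

section
variable {F₀ L K F : Type} [Field F₀] [NumberField F₀] [Field L] [NumberField L] [Algebra F₀ L]
  [IsGalois F₀ L] [Field K] [NumberField K] [Field F] [NumberField F] [Algebra K F] [IsGalois K F]
  [Algebra F L]

/-- **The L-functions of the Hecke character times the Artin representations.** -/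
theorem final (hF₀ : IsCyclotomicExtension {3} ℚ F₀ ∨ IsCyclotomicExtension {9} ℚ F₀)
    (hn : ∃ n : ℕ, Module.finrank F₀ L = 2 ^ n) (hG : Pool.Agent.K7.H56.P.Gd F₀ L)
    {z : 𝓞 K} (hz : z * z = -1 - z)
    {w : HeightOneSpectrum (𝓞 K) → HeightOneSpectrum (𝓞 F)}
    (hw : ∀ u, (w u).asIdeal.under (𝓞 K) = u.asIdeal) :
    ∃ π : HeightOneSpectrum (𝓞 K) → Ei, (∀ u, (3 : 𝓞 K) ∉ u.asIdeal → FrE z u (π u)) ∧
      ∀ (κ : Type) [Fintype κ] [DecidableEq κ] (M : Gal(F/K) →* Matrix κ κ ℂ),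
      ∃ (U : Set ℂ) (Φ : ℂ → ℂ), IsOpen U ∧ IsConnected U ∧ {s : ℂ | (3 / 2 : ℝ) < s.re} ⊆ U ∧
        (1 : ℂ) ∈ U ∧ (IsPGroup 2 Gal(F/K) → U = Set.univ) ∧ AnalyticOnNhd ℂ Φ U ∧
        (∀ s : ℂ, (3 / 2 : ℝ) < s.re → HasProd (fun u : HeightOneSpectrum (𝓞 K) =>
          if (3 : 𝓞 K) ∈ u.asIdeal then 1 else
            (Matrix.det (1 - (toC (π u) * (Nat.card (𝓞 K ⧸ u.asIdeal) : ℂ) ^ (-s)) •
              meanM M u (w u)))⁻¹) (Φ s)) ∧ Φ 1 ≠ 0 := by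
  obtain ⟨hf, hr, h3⟩ := Pool.Agent.K7.H70.AW.family (L := L) hF₀ hn hG
  have h3K : ∃ a : K, a ^ 2 = -3 := ⟨2 * (z : K) + 1, by
    have h : (z : K) * z = -1 - z := by
      have := congrArg (algebraMap (𝓞 K) K) hz
      rwa [map_mul, map_sub, map_neg, map_one] at this
    linear_combination 4 * h⟩
  have hpi : ∀ u : HeightOneSpectrum (𝓞 K), ∃ x : Ei, (3 : 𝓞 K) ∉ u.asIdeal →
      FrE z u x ∧ PN (iz hz) u.asIdeal = toC x := by
    intro u
    by_cases h : (3 : 𝓞 K) ∈ u.asIdeal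
    · exact ⟨0, fun h' => absurd h h'⟩
    · obtain ⟨x, h1, h2, h4, h5⟩ := pn_val hz h
      exact ⟨x, fun _ => ⟨⟨h1, h2, h4⟩, h5⟩⟩
  choose π hπ using hpi
  refine ⟨π, fun u hu => (hπ u hu).1, fun κ _ _ M => ?_⟩
  have hw' : ∀ v, und0 K (w v) = v := fun v => HeightOneSpectrum.ext (hw v)
  choose φ hφ using fun v => exists_frob (K := K) (w v)
  have hfac : ∀ (u : HeightOneSpectrum (𝓞 K)) (s : ℂ), (LinearMap.det ((1 : Module.End ℂ (κ → ℂ)) -
      (PN (iz hz) u.asIdeal * (nK u : ℂ) ^ (-s)) •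
        avg (repM (dualM M)) ((w u).asIdeal.inertia Gal(F/K)) (φ u)))⁻¹ =
      if (3 : 𝓞 K) ∈ u.asIdeal then 1 else
            (Matrix.det (1 - (toC (π u) * (Nat.card (𝓞 K ⧸ u.asIdeal) : ℂ) ^ (-s)) •
              meanM M u (w u)))⁻¹ := by
    intro u s
    rw [det_mean M (hw u) (hφ u)]
    by_cases h : (3 : 𝓞 K) ∈ u.asIdeal
    · rw [if_pos h, Pool.Agent.R430.PN_three h, zero_mul, zero_smul, sub_zero, Matrix.det_one, inv_one]
    · rw [if_neg h, (hπ u h).2, ← card_nm u]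
  by_cases hP : IsPGroup 2 Gal(F/K)
  · obtain ⟨Φ, g1, g2, g3⟩ := ent_PW hf hr (iz hz) h3K hP (repM (dualM M)) w hw' φ hφ
    refine ⟨Set.univ, Φ, isOpen_univ, isConnected_univ, Set.subset_univ _, Set.mem_univ _,
      fun _ => rfl, fun z _ => g1.analyticAt z, fun s hs => ?_, g3⟩
    rw [← funext fun u => hfac u s]
    exact g2 s hs
  · obtain ⟨U, Φ, g1, g2, g3, g4, g5, g6, g7, -⟩ := all_PW hf hr (iz hz) h3K (repM (dualM M)) w hw' φ hφ
    refine ⟨U, Φ, g1, g2, g3, g4, fun h => absurd h hP, g5, fun s hs => ?_, g7⟩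
    rw [← funext fun u => hfac u s]
    exact g6 s hs

end

end Pool.Agent.H503.Psi
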