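import Pool.Graph.R_pool_sql_team_seeded_35f281b4.H76.BKT.Sel

/-!
# Twisted Bloch–Kato Selmer groups over arbitrary base fields
-/

set_option autoImplicit false
set_option linter.unusedSectionVars false

open WeierstrassCurve IsDedekindDomain NumberField
open scoped Classical

namespace Pool.Agent.H503.Psi

open Pool.Agent.H76.BKT
open Pool.Agent.Y696
open Pool.Agent.TH841.SH.D
open Pool.Agent.Y664.QA
open Pool.Agent.Y667.BKP
open Pool.Agent.K7.H70.ST

section main
variable {K F : Type} [Field K] [NumberField K] [Field F] [NumberField F] [Algebra K F] {m : ℕ}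
  {j : F →ₐ[K] AlgebraicClosure K} {R : (F ≃ₐ[K] F) →* Matrix (Fin m) (Fin m) ℤ}
  {c : Gal K → Fin m → ℕ → Pt (E0 K) (AlgebraicClosure K)}

/-- **The twisted Selmer group is zero**, for a totally complex large field (after `tw_zero` of the library,
where the small field is totally complex). -/
theorem tw_zero_c [IsGalois K F] [IsTotallyComplex F] (hF : SelV F) (hc : TCoc j R c)
    (hloc : ∀ v : HeightOneSpectrum (𝓞 K), TKum j R (v.adicCompletion K) c) :
    ∃ x : Fin m → ℕ → Pt (E0 K) (AlgebraicClosure K), (∀ i, IsV 2 (E0 K) (x i)) ∧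
      ∀ σ g, Res j σ g → ∀ i n,
        c σ i n = ∑ k, R g i k • act (E0 K) σ.toAlgHom (x k n) - x i n := by
  obtain ⟨e, he⟩ := exists_e j
  have hr : ∀ σ : Gal F, Res j (res e σ) 1 := by
    intro σ x
    apply e.injective
    rw [res_apply, he, σ.commutes, AlgEquiv.one_apply, he]
  -- the comparison of the points
  let T : Pt (E0 K) (AlgebraicClosure K) → Pt (E0 F) (AlgebraicClosure F) := fun P =>
    tr K F (AlgebraicClosure F) (act (E0 K) (e : _ →ₐ[K] _) P)
  have hTadd : ∀ P Q, T (P + Q) = T P + T Q := fun P Q => by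
    show tr K F _ (act (E0 K) _ (P + Q)) = _
    rw [map_add, map_add]
  have hTn : ∀ (a : ℕ) P, T (a • P) = a • T P := fun a P => by
    show tr K F _ (act (E0 K) _ (a • P)) = _
    rw [map_nsmul, map_nsmul]
  have hT0 : T 0 = 0 := by
    show tr K F _ (act (E0 K) _ 0) = _
    rw [map_zero, map_zero]
  have hTs : ∀ P Q, T (P - Q) = T P - T Q := fun P Q => by
    show tr K F _ (act (E0 K) _ (P - Q)) = _
    rw [map_sub, map_sub]
  have hTact : ∀ (σ : Gal F) P, T (act (E0 K) (res e σ).toAlgHom P) =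
      act (E0 F) σ.toAlgHom (T P) := fun σ P => tr_act_res e σ P
  have inj : ∀ P, T P = 0 → P = 0 := by
    intro P hP
    apply act_inj (E0 K) (e : _ →ₐ[K] AlgebraicClosure F)
    apply (tr K F (AlgebraicClosure F)).injective
    rw [map_zero, map_zero]
    exact hP
  have surj : ∀ P, ∃ P₀, T P₀ = P := by
    intro P
    refine ⟨act (E0 K) (e.symm : AlgebraicClosure F →ₐ[K] AlgebraicClosure K)
      ((tr K F (AlgebraicClosure F)).symm P), ?_⟩
    have e4 : ((e : AlgebraicClosure K →ₐ[K] AlgebraicClosure F)).comp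
        (e.symm : AlgebraicClosure F →ₐ[K] AlgebraicClosure K) = AlgHom.id K _ :=
      AlgHom.ext fun x => e.apply_symm_apply x
    change tr K F (AlgebraicClosure F) (act (E0 K) (e : _ →ₐ[K] _)
      (act (E0 K) (e.symm : AlgebraicClosure F →ₐ[K] AlgebraicClosure K)
        ((tr K F (AlgebraicClosure F)).symm P))) = P
    rw [act_act, e4, act_id, AddEquiv.apply_symm_apply]
  have c1 : ∀ i n, c 1 i n = 0 := by
    intro i n
    have h1 := hc.mul 1 1 1 (fun x => rfl) i n
    rw [map_one, sum_one, mul_one] at h1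
    have h2 : act (E0 K) (1 : Gal K).toAlgHom (c 1 i n) = c 1 i n := act_id (E0 K) _
    rw [h2] at h1
    exact left_eq_add.1 h1
  -- the restricted cocycles
  let d : Fin m → Coch2 (E0 F) := fun i σ n => T (c (res e σ) i n)
  have hd1 : ∀ i, d i 1 = 0 := by
    intro i
    funext n
    show T (c (res e 1) i n) = 0
    rw [res_one, c1, hT0]
  have hd : ∀ i, IsSelV 2 (E0 F) (d i) := by
    intro i
    refine ⟨⟨fun n => ?_, fun σ n => ⟨?_, ?_⟩, fun σ τ n => ?_⟩, fun w => ?_, fun w => ?_⟩
    · exact ((hc.cont i n).comp_continuous (res_cont e)).comp T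
    · show 2 • T (c (res e σ) i (n + 1)) = T (c (res e σ) i n)
      rw [← hTn, (hc.tate (res e σ) i n).1]
    · obtain ⟨M, hM⟩ := (hc.tate (res e σ) i n).2
      refine ⟨M, ?_⟩
      show (2 ^ M : ℕ) • T (c (res e σ) i n) = 0
      rw [← hTn, hM, hT0]
    · show T (c (res e (σ * τ)) i n) = T (c (res e σ) i n) +
        act (E0 F) σ.toAlgHom (T (c (res e τ) i n))
      rw [res_mul, hc.mul _ _ 1 (hr σ), map_one, sum_one, hTadd, hTact]
    · obtain ⟨v, φ, hφ⟩ := compl_tower K F w
      let : Algebra (v.adicCompletion K) (w.adicCompletion F) := φ.toAlgebra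
      have : IsScalarTower K (v.adicCompletion K) (w.adicCompletion F) := by
        refine IsScalarTower.of_algebraMap_eq fun x => ?_
        rw [IsScalarTower.algebraMap_apply K F (w.adicCompletion F)]
        exact (hφ x).symm
      exact tkum_rst hr (hloc v) i
    · have := closed_compl (K := F) w
      exact locKum_closed (hd1 i) _
  have hcob : ∀ i, IsCobV 2 (E0 F) (d i) := by
    intro i
    have h1 := h1f_zero Nat.prime_two hF.fin 0 (fun k x hx => by
      rw [sha2 hF k x hx, smul_zero])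
      (QuotientAddGroup.mk (⟨d i, hd i⟩ : selCocV 2 (E0 F)))
    have h2 := (QuotientAddGroup.eq_zero_iff _).1 h1
    rw [AddSubgroup.mem_addSubgroupOf] at h2
    exact h2
  choose y hy1 hy2 using hcob
  choose x hx using fun i n => surj (y i n)
  have hxV : ∀ i, IsV 2 (E0 K) (x i) := by
    intro i n
    obtain ⟨h1, M, h2⟩ := hy1 i n
    refine ⟨?_, M, ?_⟩
    · apply sub_eq_zero.1
      apply inj
      rw [hTs, hTn, hx, hx, h1, sub_self]
    · apply inj
      rw [hTn, hx, h2]
  refine ⟨x, hxV, ?_⟩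
  -- the difference
  have hN : ∀ (σ : Gal F) i n, c (res e σ) i n =
      act (E0 K) (res e σ).toAlgHom (x i n) - x i n := by
    intro σ i n
    apply sub_eq_zero.1
    apply inj
    rw [hTs, hTs, hTact, hx]
    exact sub_eq_zero.2 (hy2 i σ n)
  intro t g hg i n
  obtain ⟨S, hS⟩ : ∃ S, S = ∑ k, R g i k • act (E0 K) t.toAlgHom (x k n) := ⟨_, rfl⟩
  rw [← hS]
  have key : ∀ σ : Gal F, act (E0 K) (res e σ).toAlgHom (c t i n - (S - x i n)) =
      c t i n - (S - x i n) := by
    intro σ
    obtain ⟨σ', hσ'⟩ := conj_ex e σ t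
    have a := hc.mul (res e σ) t 1 (hr σ) i n
    have b := hc.mul t (res e σ') g hg i n
    have b2 : ∑ k, R g i k • act (E0 K) t.toAlgHom (c (res e σ') k n) =
        act (E0 K) (res e σ).toAlgHom S - S := by
      rw [hS, map_sum, ← Finset.sum_sub_distrib]
      refine Finset.sum_congr rfl fun k _ => ?_
      rw [hN, map_sub, smul_sub, map_zsmul, act_act, act_act]
      have e5 : t.toAlgHom.comp (res e σ').toAlgHom = (res e σ).toAlgHom.comp t.toAlgHom :=
        congrArg AlgEquiv.toAlgHom hσ'.symm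
      rw [e5]
    rw [hσ', b, b2, map_one, sum_one, hN σ] at a
    rw [map_sub, map_sub]
    have e6 : act (E0 K) (res e σ).toAlgHom (c t i n) =
        c t i n + (act (E0 K) (res e σ).toAlgHom S - S) -
          (act (E0 K) (res e σ).toAlgHom (x i n) - x i n) := by
      rw [a]
      abel
    rw [e6]
    abel
  obtain ⟨R0, hR0⟩ := fixpt (T (c t i n - (S - x i n))) (fun σ => by rw [← hTact, key])
  have hS2 : S ∈ pt2 (E0 K) := by
    rw [hS]
    exact sum_mem fun k _ => zsmul_mem (map_pt2 _ (hxV k n).2) _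
  obtain ⟨M, hM⟩ : c t i n - (S - x i n) ∈ pt2 (E0 K) :=
    sub_mem (hc.tate t i n).2 (sub_mem hS2 (hxV i n).2)
  apply sub_eq_zero.1
  apply inj
  have h3 : (2 ^ M : ℕ) • R0 = 0 := by
    apply act_inj (E0 F) (Algebra.ofId F (AlgebraicClosure F))
    rw [map_nsmul, hR0, ← hTn, hM, hT0, map_zero]
  rw [← hR0, tor2 hF.odd M R0 h3, map_zero]

end main

end Pool.Agent.H503.Psi
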